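import Pool.Agent.helper17.MLG.All

/-!
# Solutions of the isoperimetric problem in metric Lie groups: volume and mean curvature

Notation as in `StrictlyConcaveProfile.lean` (definitions in `Pool/Agent/helper17/MLG/Defs.lean`): `V` is a metric Lie group
diffeomorphic to `ℝ^n`, `n = finrank ℝ V`, `vol V` its Riemannian volume, `per` the perimeter, `IsSol E`: `E` is a compact
region of least perimeter among all compact regions of the same volume.

Theorem. Let `n ≥ 2`. There are a countable set `N` and a function `H`, strictly decreasing on `(0, ∞) \ N`, such that for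
all `v > 0`, `v ∉ N`, every solution `Ω` of volume `v` satisfies `d per (A t) / dt = H(v) d vol (A t) / dt` at `t = 0` for
every family of measurable sets `A t` with `A 0 = Ω`, of finite perimeter for `t` near 0, whose volume and perimeter are
differentiable at `t = 0`. (By the first variation formula the boundary of `Ω` has the constant mean curvature
`H(v) / (n - 1)`.) So, outside `N`, any two solutions of the same volume have the same mean curvature, and two solutions of
different volumes have different mean curvatures.
-/

set_option autoImplicit false

namespace Pool.Agent.Results.MP_84f457_gt.MeanCurvatureDecreases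

open MeasureTheory Set Filter Topology Module Pool.Agent.MLG

theorem result (V : Type) [NormedAddCommGroup V] [InnerProductSpace ℝ V] [FiniteDimensional ℝ V] [MeasurableSpace V]
    [BorelSpace V] [Group V] (hV : IsLie V) (hn : 2 ≤ finrank ℝ V) :
    ∃ (N : Set ℝ) (H : ℝ → ℝ), N.Countable ∧ StrictAntiOn H (Ioi 0 \ N) ∧
      ∀ v : ℝ, 0 < v → v ∉ N → ∀ Ω : Set V, IsSol Ω → vol V Ω = ENNReal.ofReal v →
        ∀ (A : ℝ → Set V) (p w : ℝ), A 0 = Ω → (∀ t, MeasurableSet (A t)) → (∀ᶠ t in 𝓝 0, per (A t) ≠ ⊤) →
          HasDerivAt (fun t => (vol V (A t)).toReal) w 0 → HasDerivAt (fun t => (per (A t)).toReal) p 0 →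
          p = H v * w :=
  (r_FNL V hV hn).2.2.2.2.2

end Pool.Agent.Results.MP_84f457_gt.MeanCurvatureDecreases
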