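import Pool.Agent.helper17.MLG.All

/-!
# The isoperimetric profile of a metric Lie group diffeomorphic to `ℝ^n` is strictly concave

Notation (all in `Pool/Agent/helper17/MLG/Defs.lean`). `V` is a finite-dimensional real inner product space with a second
structure, a group structure `x * y`, `x⁻¹`, `1`, and `IsLie V` says that product and inverse are smooth (`1 : V` is the unit
of the group, not the origin of `V`). So `V` is a Lie group diffeomorphic to `ℝ^n`, `n = finrank ℝ V`; its tangent space at `1`
is `V` with its inner product, and the Riemannian metric is the left-invariant metric which extends this inner product. Every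
metric Lie group `X` diffeomorphic to `ℝ^n` is of this form: take for `V` the tangent space of `X` at the unit and transport
the group by a diffeomorphism `X → V` with differential the identity at the unit.

`fr x` is the differential at `1` of the left translation by `x` (an isometry from `V` onto the tangent space at `x`), `vol V`
the Riemannian volume, `dvg a` the Riemannian divergence of the vector field `x ↦ fr x (a x)`, whose length is `‖a x‖`, `per E`
the perimeter of `E` (De Giorgi), which is the area of the boundary if this is piecewise smooth. `IsRegion E`: `E` is compact and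
the closure of its interior. `IsSol E`: `E` is a region which has the least perimeter among all regions of the same volume.
`iso V v` is the infimum of the perimeters of the regions of volume `v`, the isoperimetric profile.

Theorem. Let `n ≥ 2`. For every `v > 0` there is a solution of volume `v`, and the isoperimetric profile is a strictly
concave and strictly increasing function of `v`.
-/

set_option autoImplicit false

namespace Pool.Agent.Results.MP_84f457_gt.StrictlyConcaveProfile

open MeasureTheory Set Module Pool.Agent.MLG

theorem result (V : Type) [NormedAddCommGroup V] [InnerProductSpace ℝ V] [FiniteDimensional ℝ V] [MeasurableSpace V]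
    [BorelSpace V] [Group V] (hV : IsLie V) (hn : 2 ≤ finrank ℝ V) :
    (∀ v : ℝ, 0 < v → ∃ Ω : Set V, IsSol Ω ∧ vol V Ω = ENNReal.ofReal v ∧ per Ω = iso V v ∧ iso V v < ⊤) ∧
    StrictConcaveOn ℝ (Ioi 0) (fun v => (iso V v).toReal) ∧
    StrictMonoOn (fun v => (iso V v).toReal) (Ioi 0) := by
  have h1 : 1 ≤ finrank ℝ V := le_trans one_le_two hn
  obtain ⟨ha, hb, hc, -⟩ := r_FNL V hV hn
  refine ⟨fun v hv => ?_, hb, hc⟩
  obtain ⟨hfin, ⟨Ω, hΩ, hΩv, -⟩, -⟩ := ha v hv
  obtain ⟨hi, -, hs⟩ := r_REG V hV h1 v hv
  exact ⟨Ω, hΩ, hΩv, ((hs Ω hΩ.1 hΩv).1 hΩ).trans hi.symm, hfin⟩

end Pool.Agent.Results.MP_84f457_gt.StrictlyConcaveProfile
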