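import Pool.Agent.helper75.IQ.FIN
import Pool.Agent.helper75.IQ.CAL
import Pool.Agent.helper10.IQ.SEC
import Pool.Agent.helper18.IQ.IBP
import Pool.Agent.helper32.IQ.BVO
import Pool.Agent.helper33.IQ.UPB
import Pool.Agent.helper34.IQ.LIN
import Pool.Agent.helper34.IQ.POL
import Pool.Agent.helper44.IQ.WCL
import Pool.Agent.helper46.IQ.BAL
import Pool.Agent.helper46.IQ.EQD
import Pool.Agent.helper54.IQ.MON
import Pool.Agent.helper58.IQ.CMP
import Pool.Agent.helper61.IQ.EQT
import Pool.Agent.helper64.IQ.EQA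
import Pool.Agent.helper67.IQ.EQF
import Pool.Agent.helper72.IQ.LOW
import Pool.Agent.helper79.IQ.EXT
import Pool.Agent.helper83.IQ.HGT
import Pool.Agent.helper92.IQ.SUR

/-!
# Isoperimetric regions in `E(κ, τ)`, `κ ≤ 0` (Heisenberg group, universal cover of `SL(2, ℝ)`)

Notation (all in `Pool/Agent/helper75/IQ/Defs.lean`). `E(κ, τ)` is `space κ = {1 + κ (x² + y²) / 4 > 0} ⊆ ℝ³` with the
metric `λ² (dx² + dy²) + (dt + τ λ (y dx - x dy))²`, `λ = 1 / (1 + κ (x² + y²) / 4)`; the volume is `λ² dx dy dt`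
(`vol κ`); `per κ τ E` is the perimeter (De Giorgi): the supremum of the integrals over `E` of the divergences of the
`C¹` fields `a E₁ + b E₂ + c E₃` with compact support in `space κ` and length at most one, where `E₁ = λ⁻¹ ∂x - τ y ∂t`,
`E₂ = λ⁻¹ ∂y + τ x ∂t`, `E₃ = ∂t` is the standard orthonormal frame. For a region with a piecewise smooth boundary
it is the area of the boundary.

`ball κ τ R = {x² + y² = w ≤ R², |t| ≤ ½ ∫_w^(R²) λ(v) √((1 + τ² v)/(R² - v)) dv}` (the region bounded by the rotational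
sphere of constant mean curvature `1/R`).

Theorem. For `κ ≤ 0`, all `τ`, all `V > 0` there is `R` such that `ball κ τ R` has volume `V` and, among all compact
regions `E` (closures of their interior) of volume `V` which lie in the closed vertical cylinder over a disc
`x² + y² ≤ r²` (any `r` with `κ r² > -4`) and whose interior contains the graph of some continuous function over the
open disc, it has the least perimeter, and every other minimiser is a vertical translate of it.
-/

set_option autoImplicit false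

namespace Pool.Agent.Results.MP_84f457_gt.TrappedRegions

open MeasureTheory Set Pool.Agent.helper75.IQ

theorem result (κ τ : ℝ) (hκ : κ ≤ 0) (V : ℝ) (hV : 0 < V) :
    ∃ R : ℝ, 0 < R ∧ -4 < κ * R ^ 2 ∧
      IsRegion (ball κ τ R) ∧ TrapAt κ R (fun _ => 0) (ball κ τ R) ∧
      vol κ (ball κ τ R) = ENNReal.ofReal V ∧ per κ τ (ball κ τ R) < ⊤ ∧
      ∀ (E : Set Sp) (r : ℝ) (m : ℝ × ℝ → ℝ), IsRegion E → TrapAt κ r m E → vol κ E = ENNReal.ofReal V →
        per κ τ (ball κ τ R) ≤ per κ τ E ∧
        (per κ τ E = per κ τ (ball κ τ R) → ∃ c : ℝ, E = sh c '' ball κ τ R) := by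
  have hCAL := CAL POL SEC
  have hEQT := EQT LIN hCAL
  exact FIN CMP SUR (BAL HGT) (BVO POL HGT) (UPB POL HGT IBP) (LOW hCAL) (EQD LIN hEQT) (EXT HGT)
    (EQA HGT WCL MON) (EQF HGT (BAL HGT)) κ τ hκ V hV

end Pool.Agent.Results.MP_84f457_gt.TrappedRegions
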